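import Mathlib

set_option autoImplicit false
open Filter Topology
set_option linter.unusedSectionVars false

namespace H77MB

/-- `f` is a monotone Schauder basis of `X` (same clauses as in the frozen statement). -/
def IsMonoBasis {X : Type} [NormedAddCommGroup X] [NormedSpace ℝ X] (f : ℕ → X) : Prop :=
  (∀ x : X, ∃! a : ℕ → ℝ,
        Tendsto (fun n : ℕ => ∑ i ∈ Finset.range n, a i • f i) atTop (𝓝 x)) ∧
  (∀ (a : ℕ → ℝ) (n m : ℕ), n ≤ m →
        ‖∑ i ∈ Finset.range n, a i • f i‖ ≤ ‖∑ i ∈ Finset.range m, a i • f i‖)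

/-- The positive form of the problem, as a proposition. -/
def MainStmt : Prop :=
  ∀ (B : Type) [NormedAddCommGroup B] [NormedSpace ℝ B] [CompleteSpace B],
    ¬ FiniteDimensional ℝ B →
    (∃ e : ℕ → B,
      (∀ x : B, ∃! a : ℕ → ℝ,
        Tendsto (fun n : ℕ => ∑ i ∈ Finset.range n, a i • e i) atTop (𝓝 x)) ∧
      (∀ (a : ℕ → ℝ) (n m : ℕ), n ≤ m →
        ‖∑ i ∈ Finset.range n, a i • e i‖ ≤ ‖∑ i ∈ Finset.range m, a i • e i‖)) →
    ∀ F : Submodule ℝ B, IsClosed (F : Set B) → ¬ FiniteDimensional ℝ F →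
      (∃ P : B →L[ℝ] B, (∀ x : B, P x ∈ F) ∧ (∀ x ∈ F, P x = x) ∧ ‖P‖ ≤ 1) →
      ∃ f : ℕ → B, (∀ i : ℕ, f i ∈ F) ∧
        (∀ x ∈ F, ∃! a : ℕ → ℝ,
          Tendsto (fun n : ℕ => ∑ i ∈ Finset.range n, a i • f i) atTop (𝓝 x)) ∧
        (∀ (a : ℕ → ℝ) (n m : ℕ), n ≤ m →
          ‖∑ i ∈ Finset.range n, a i • f i‖ ≤ ‖∑ i ∈ Finset.range m, a i • f i‖)

section Embed

variable {X : Type} [NormedAddCommGroup X] [NormedSpace ℝ X]

/-- the sequence space attached to `v` -/
def BSub (v : ℕ → X) : Submodule ℝ C(OnePoint ℕ, X) where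
  carrier := {s | s ((0 : ℕ) : OnePoint ℕ) = 0 ∧
    ∀ n : ℕ, ∃ c : ℝ, s ((n + 1 : ℕ) : OnePoint ℕ) - s ((n : ℕ) : OnePoint ℕ) = c • v n}
  zero_mem' := by
    refine ⟨rfl, fun n => ⟨0, by simp⟩⟩
  add_mem' := by
    rintro s t ⟨hs0, hs⟩ ⟨ht0, ht⟩
    refine ⟨by simp [hs0, ht0], fun n => ?_⟩
    obtain ⟨c, hc⟩ := hs n
    obtain ⟨d, hd⟩ := ht n
    refine ⟨c + d, ?_⟩
    rw [add_smul, ← hc, ← hd]
    simp only [ContinuousMap.add_apply]
    abel
  smul_mem' := by
    rintro r s ⟨hs0, hs⟩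
    refine ⟨by simp [hs0], fun n => ?_⟩
    obtain ⟨c, hc⟩ := hs n
    refine ⟨r * c, ?_⟩
    rw [mul_smul, ← hc]
    simp only [ContinuousMap.smul_apply]
    rw [smul_sub]

theorem isClosed_BSub (v : ℕ → X) : IsClosed (BSub v : Set C(OnePoint ℕ, X)) := by
  have h1 : (BSub v : Set C(OnePoint ℕ, X)) =
      {s | s ((0 : ℕ) : OnePoint ℕ) = 0} ∩ ⋂ n : ℕ,
        (fun s : C(OnePoint ℕ, X) => s ((n + 1 : ℕ) : OnePoint ℕ) - s ((n : ℕ) : OnePoint ℕ)) ⁻¹'
          ((Submodule.span ℝ {v n} : Submodule ℝ X) : Set X) := by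
    ext s
    simp only [Set.mem_inter_iff, Set.mem_ofPred_eq, Set.mem_iInter, Set.mem_preimage,
      SetLike.mem_coe, Submodule.mem_span_singleton]
    constructor
    · rintro ⟨h0, h⟩
      refine ⟨h0, fun n => ?_⟩
      obtain ⟨c, hc⟩ := h n
      exact ⟨c, hc.symm⟩
    · rintro ⟨h0, h⟩
      refine ⟨h0, fun n => ?_⟩
      obtain ⟨c, hc⟩ := h n
      exact ⟨c, hc.symm⟩
  rw [h1]
  refine IsClosed.inter ?_ (isClosed_iInter fun n => ?_)
  · exact isClosed_eq (continuous_eval_const _) continuous_const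
  · refine IsClosed.preimage ?_ (Submodule.closed_of_finiteDimensional _)
    exact (continuous_eval_const _).sub (continuous_eval_const _)

/-- step function with jump `v k` at time `k` -/
noncomputable def stepC (v : ℕ → X) (k : ℕ) : C(OnePoint ℕ, X) :=
  OnePoint.continuousMapMkNat (fun n => if k < n then v k else 0) (v k)
    (tendsto_const_nhds.congr' (by
      filter_upwards [eventually_gt_atTop k] with n hn
      rw [if_pos hn]))

theorem stepC_coe (v : ℕ → X) (k n : ℕ) :
    stepC v k ((n : ℕ) : OnePoint ℕ) = if k < n then v k else 0 := rfl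

theorem stepC_infty (v : ℕ → X) (k : ℕ) :
    stepC v k (OnePoint.infty) = v k := rfl

theorem stepC_mem (v : ℕ → X) (k : ℕ) : stepC v k ∈ BSub v := by
  refine ⟨by simp [stepC_coe], fun n => ?_⟩
  rw [stepC_coe, stepC_coe]
  by_cases h : k = n
  · refine ⟨1, ?_⟩
    subst h
    simp
  · refine ⟨0, ?_⟩
    by_cases h2 : k < n
    · rw [if_pos h2, if_pos (by omega)]
      simp
    · rw [if_neg h2, if_neg (by omega)]
      simp

theorem sum_stepC_coe (v : ℕ → X) (a : ℕ → ℝ) (N m : ℕ) :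
    (∑ i ∈ Finset.range N, a i • stepC v i) ((m : ℕ) : OnePoint ℕ)
      = ∑ i ∈ Finset.range (min N m), a i • v i := by
  rw [ContinuousMap.coe_sum, Finset.sum_apply]
  simp only [ContinuousMap.smul_apply, stepC_coe, smul_ite, smul_zero]
  rw [Finset.sum_ite, Finset.sum_const_zero, add_zero]
  congr 1
  ext i
  simp only [Finset.mem_filter, Finset.mem_range, lt_min_iff]

theorem sum_stepC_infty (v : ℕ → X) (a : ℕ → ℝ) (N : ℕ) :
    (∑ i ∈ Finset.range N, a i • stepC v i) (OnePoint.infty)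
      = ∑ i ∈ Finset.range N, a i • v i := by
  rw [ContinuousMap.coe_sum, Finset.sum_apply]
  simp only [ContinuousMap.smul_apply, stepC_infty]

theorem norm_le_iff (s : C(OnePoint ℕ, X)) (C : ℝ) (hC : 0 ≤ C) :
    ‖s‖ ≤ C ↔ (∀ n : ℕ, ‖s ((n : ℕ) : OnePoint ℕ)‖ ≤ C) ∧ ‖s OnePoint.infty‖ ≤ C := by
  rw [ContinuousMap.norm_le s hC]
  constructor
  · intro h
    exact ⟨fun n => h _, h _⟩
  · rintro ⟨h1, h2⟩ x
    induction x using OnePoint.rec with
    | infty => exact h2
    | coe n => exact h1 n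

theorem sum_stepC_mono (v : ℕ → X) (a : ℕ → ℝ) (n m : ℕ) (h : n ≤ m) :
    ‖∑ i ∈ Finset.range n, a i • stepC v i‖ ≤ ‖∑ i ∈ Finset.range m, a i • stepC v i‖ := by
  rw [norm_le_iff _ _ (norm_nonneg _)]
  constructor
  · intro k
    rw [sum_stepC_coe]
    have h1 : min n k = min m (min n k) := by omega
    rw [h1, ← sum_stepC_coe]
    exact ContinuousMap.norm_coe_le_norm _ _
  · rw [sum_stepC_infty]
    have h1 : n = min m n := by omega
    rw [h1, ← sum_stepC_coe]
    exact ContinuousMap.norm_coe_le_norm _ _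

theorem BSub_sum (v : ℕ → X) (s : C(OnePoint ℕ, X)) (a : ℕ → ℝ)
    (h0 : s ((0 : ℕ) : OnePoint ℕ) = 0)
    (ha : ∀ n : ℕ, s ((n + 1 : ℕ) : OnePoint ℕ) - s ((n : ℕ) : OnePoint ℕ) = a n • v n) (m : ℕ) :
    s ((m : ℕ) : OnePoint ℕ) = ∑ i ∈ Finset.range m, a i • v i := by
  induction m with
  | zero => simpa using h0
  | succ k ih =>
    rw [Finset.sum_range_succ, ← ih, ← ha k]
    abel

theorem BSub_tendsto (v : ℕ → X) (s : C(OnePoint ℕ, X)) (a : ℕ → ℝ)
    (h0 : s ((0 : ℕ) : OnePoint ℕ) = 0)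
    (ha : ∀ n : ℕ, s ((n + 1 : ℕ) : OnePoint ℕ) - s ((n : ℕ) : OnePoint ℕ) = a n • v n) :
    Tendsto (fun n : ℕ => ∑ i ∈ Finset.range n, a i • stepC v i) atTop (𝓝 s) := by
  have hs := BSub_sum v s a h0 ha
  have hlim : Tendsto (fun n : ℕ => s ((n : ℕ) : OnePoint ℕ)) atTop (𝓝 (s OnePoint.infty)) :=
    (OnePoint.continuous_iff_from_nat _).1 s.continuous
  rw [Metric.tendsto_atTop] at hlim ⊢
  intro ε hε
  obtain ⟨N, hN⟩ := hlim (ε / 3) (by positivity)
  refine ⟨N, fun n hn => ?_⟩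
  rw [dist_eq_norm]
  have hle : ‖∑ i ∈ Finset.range n, a i • stepC v i - s‖ ≤ 2 * (ε / 3) := by
    rw [norm_le_iff _ _ (by positivity)]
    constructor
    · intro k
      rw [ContinuousMap.sub_apply, sum_stepC_coe, ← hs]
      by_cases hk : k ≤ n
      · rw [min_eq_right hk, sub_self, norm_zero]
        positivity
      · have hk' : n ≤ k := by omega
        rw [min_eq_left hk']
        have h1 := hN n hn
        have h2 := hN k (le_trans hn hk')
        rw [← dist_eq_norm]
        have h3 := dist_triangle_right (s ((n : ℕ) : OnePoint ℕ)) (s ((k : ℕ) : OnePoint ℕ))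
          (s OnePoint.infty)
        linarith
    · rw [ContinuousMap.sub_apply, sum_stepC_infty, ← hs, ← dist_eq_norm]
      have h1 := hN n hn
      linarith
  linarith

/-- the partial sums of rank one operators -/
noncomputable def partS (v : ℕ → X) (φ : ℕ → X →L[ℝ] ℝ) (n : ℕ) : X →L[ℝ] X :=
  ∑ i ∈ Finset.range n, (φ i).smulRight (v i)

theorem partS_apply (v : ℕ → X) (φ : ℕ → X →L[ℝ] ℝ) (n : ℕ) (x : X) :
    partS v φ n x = ∑ i ∈ Finset.range n, φ i x • v i := by
  simp [partS]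

theorem embed_main [CompleteSpace X] (hmain : MainStmt) (v : ℕ → X) (hv : ∀ n, v n ≠ 0)
    (φ : ℕ → X →L[ℝ] ℝ)
    (hle : ∀ n x, ‖partS v φ n x‖ ≤ ‖x‖)
    (hlim : ∀ x, Tendsto (fun n => partS v φ n x) atTop (𝓝 x))
    (hinf : ¬ FiniteDimensional ℝ X) :
    ∃ f : ℕ → X, IsMonoBasis f := by
  classical
  have hcl : IsClosed (BSub v : Set C(OnePoint ℕ, X)) := isClosed_BSub v
  have : CompleteSpace (BSub v) := hcl.completeSpace_coe
  -- the embedding J
  let Jfun : X → BSub v := fun x =>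
    ⟨OnePoint.continuousMapMkNat (fun n => partS v φ n x) x (hlim x), by
      refine ⟨?_, fun n => ⟨φ n x, ?_⟩⟩
      · show partS v φ 0 x = 0
        simp [partS]
      · show partS v φ (n + 1) x - partS v φ n x = φ n x • v n
        rw [partS_apply, partS_apply, Finset.sum_range_succ]
        abel⟩
  have hJcoe : ∀ x (n : ℕ), (Jfun x : C(OnePoint ℕ, X)) ((n : ℕ) : OnePoint ℕ) = partS v φ n x :=
    fun x n => rfl
  have hJinf : ∀ x, (Jfun x : C(OnePoint ℕ, X)) OnePoint.infty = x := fun x => rfl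
  have hext : ∀ s t : BSub v,
      (∀ n : ℕ, (s : C(OnePoint ℕ, X)) ((n : ℕ) : OnePoint ℕ)
        = (t : C(OnePoint ℕ, X)) ((n : ℕ) : OnePoint ℕ)) →
      (s : C(OnePoint ℕ, X)) OnePoint.infty = (t : C(OnePoint ℕ, X)) OnePoint.infty → s = t := by
    intro s t h1 h2
    apply Subtype.ext
    ext x
    induction x using OnePoint.rec with
    | infty => exact h2
    | coe n => exact h1 n
  let Jlin : X →ₗ[ℝ] BSub v :=
    { toFun := Jfun
      map_add' := by
        intro x y
        apply hext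
        · intro n
          rw [Submodule.coe_add, ContinuousMap.add_apply, hJcoe, hJcoe, hJcoe, map_add]
        · rw [Submodule.coe_add, ContinuousMap.add_apply, hJinf, hJinf, hJinf]
      map_smul' := by
        intro r x
        apply hext
        · intro n
          rw [RingHom.id_apply, Submodule.coe_smul, ContinuousMap.smul_apply, hJcoe, hJcoe,
            map_smul]
        · rw [RingHom.id_apply, Submodule.coe_smul, ContinuousMap.smul_apply, hJinf, hJinf] }
  have hJnorm : ∀ x, ‖Jlin x‖ = ‖x‖ := by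
    intro x
    apply le_antisymm
    · show ‖(Jfun x : C(OnePoint ℕ, X))‖ ≤ ‖x‖
      rw [norm_le_iff _ _ (norm_nonneg _)]
      exact ⟨fun n => by rw [hJcoe]; exact hle n x, by rw [hJinf]⟩
    · have := ContinuousMap.norm_coe_le_norm (Jfun x : C(OnePoint ℕ, X)) OnePoint.infty
      rw [hJinf] at this
      exact this
  let J : X →ₗᵢ[ℝ] BSub v := { toLinearMap := Jlin, norm_map' := hJnorm }
  -- the evaluation Q at infinity
  let Qlin : BSub v →ₗ[ℝ] X :=
    { toFun := fun s => (s : C(OnePoint ℕ, X)) OnePoint.infty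
      map_add' := fun s t => rfl
      map_smul' := fun r s => rfl }
  let Q : BSub v →L[ℝ] X := Qlin.mkContinuous 1 (by
    intro s
    rw [one_mul]
    exact ContinuousMap.norm_coe_le_norm _ _)
  have hQJ : ∀ x, Q (J x) = x := fun x => rfl
  have hQle : ∀ s, ‖Q s‖ ≤ ‖s‖ := fun s => ContinuousMap.norm_coe_le_norm _ _
  let F : Submodule ℝ (BSub v) := LinearMap.range J.toLinearMap
  have hmemF : ∀ s, s ∈ F ↔ ∃ x, J x = s := by
    intro s
    exact LinearMap.mem_range
  have hFcl : IsClosed (F : Set (BSub v)) := by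
    have : (F : Set (BSub v)) = Set.range J := by
      ext s
      simp only [SetLike.mem_coe, hmemF, Set.mem_range]
    rw [this]
    exact J.isometry.isClosedEmbedding.isClosed_range
  have hFinf : ¬ FiniteDimensional ℝ F := by
    intro hfd
    apply hinf
    have : Module.Finite ℝ F := hfd
    exact Module.Finite.equiv (LinearEquiv.ofInjective J.toLinearMap J.injective).symm
  have hBinf : ¬ FiniteDimensional ℝ (BSub v) := by
    intro hfd
    exact hFinf inferInstance
  -- the basis of B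
  have hbasis : ∃ e : ℕ → BSub v,
      (∀ x : BSub v, ∃! a : ℕ → ℝ,
        Tendsto (fun n : ℕ => ∑ i ∈ Finset.range n, a i • e i) atTop (𝓝 x)) ∧
      (∀ (a : ℕ → ℝ) (n m : ℕ), n ≤ m →
        ‖∑ i ∈ Finset.range n, a i • e i‖ ≤ ‖∑ i ∈ Finset.range m, a i • e i‖) := by
    have hcoe : ∀ (a : ℕ → ℝ) (n : ℕ),
        ((∑ i ∈ Finset.range n, a i • (⟨stepC v i, stepC_mem v i⟩ : BSub v) : BSub v) :
          C(OnePoint ℕ, X)) = ∑ i ∈ Finset.range n, a i • stepC v i := by
      intro a n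
      rw [Submodule.coe_sum]
      rfl
    refine ⟨fun k => ⟨stepC v k, stepC_mem v k⟩, ?_, ?_⟩
    · intro s
      have h0 := s.2.1
      have hs1 := s.2.2
      choose a ha using hs1
      refine ⟨a, ?_, ?_⟩
      · show Tendsto (fun n : ℕ => ∑ i ∈ Finset.range n,
          a i • (⟨stepC v i, stepC_mem v i⟩ : BSub v)) atTop (𝓝 s)
        rw [tendsto_subtype_rng]
        simp only [hcoe]
        exact BSub_tendsto v s.1 a h0 ha
      · intro b hb
        change Tendsto (fun n : ℕ => ∑ i ∈ Finset.range n,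
          b i • (⟨stepC v i, stepC_mem v i⟩ : BSub v)) atTop (𝓝 s) at hb
        rw [tendsto_subtype_rng] at hb
        simp only [hcoe] at hb
        funext k
        have h1 : Tendsto (fun n : ℕ => (∑ i ∈ Finset.range n, b i • stepC v i)
            ((k + 1 : ℕ) : OnePoint ℕ) - (∑ i ∈ Finset.range n, b i • stepC v i)
            ((k : ℕ) : OnePoint ℕ)) atTop
            (𝓝 (s.1 ((k + 1 : ℕ) : OnePoint ℕ) - s.1 ((k : ℕ) : OnePoint ℕ))) := by
          apply Tendsto.sub
          · exact ((continuous_eval_const ((k + 1 : ℕ) : OnePoint ℕ)).tendsto s.1).comp hb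
          · exact ((continuous_eval_const ((k : ℕ) : OnePoint ℕ)).tendsto s.1).comp hb
        have h2 : Tendsto (fun n : ℕ => (∑ i ∈ Finset.range n, b i • stepC v i)
            ((k + 1 : ℕ) : OnePoint ℕ) - (∑ i ∈ Finset.range n, b i • stepC v i)
            ((k : ℕ) : OnePoint ℕ)) atTop (𝓝 (b k • v k)) := by
          apply tendsto_const_nhds.congr'
          filter_upwards [eventually_ge_atTop (k + 1)] with n hn
          rw [sum_stepC_coe, sum_stepC_coe, min_eq_right hn, min_eq_right (by omega : k ≤ n),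
            Finset.sum_range_succ]
          abel
        have h3 := tendsto_nhds_unique h1 h2
        rw [ha k] at h3
        have h4 : (a k - b k) • v k = 0 := by rw [sub_smul, h3, sub_self]
        rcases smul_eq_zero.1 h4 with h5 | h5
        · linarith
        · exact absurd h5 (hv k)
    · intro a n m hnm
      have := sum_stepC_mono v a n m hnm
      rw [← hcoe, ← hcoe] at this
      exact this
  obtain ⟨f, hfF, hfb, hfm⟩ := hmain (BSub v) hBinf hbasis F hFcl hFinf
    ⟨J.toContinuousLinearMap.comp Q, by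
      intro s
      exact (hmemF _).2 ⟨Q s, rfl⟩, by
      intro s hs
      obtain ⟨x, rfl⟩ := (hmemF _).1 hs
      rfl, by
      apply ContinuousLinearMap.opNorm_le_bound _ zero_le_one
      intro s
      rw [one_mul]
      show ‖J (Q s)‖ ≤ ‖s‖
      rw [J.norm_map]
      exact hQle s⟩
  have hJQ : ∀ s ∈ F, J (Q s) = s := by
    intro s hs
    obtain ⟨x, rfl⟩ := (hmemF _).1 hs
    rfl
  have hJsum : ∀ (a : ℕ → ℝ) (n : ℕ), J (∑ i ∈ Finset.range n, a i • Q (f i))
      = ∑ i ∈ Finset.range n, a i • f i := by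
    intro a n
    rw [map_sum]
    refine Finset.sum_congr rfl fun i _ => ?_
    rw [map_smul, hJQ _ (hfF i)]
  refine ⟨fun i => Q (f i), ?_, ?_⟩
  · intro x
    obtain ⟨a, ha, hau⟩ := hfb (J x) ((hmemF _).2 ⟨x, rfl⟩)
    refine ⟨a, ?_, ?_⟩
    · have h1 := (Q.continuous.tendsto (J x)).comp ha
      rw [hQJ] at h1
      refine h1.congr fun n => ?_
      simp [map_sum]
    · intro b hb
      apply hau
      have h1 := (J.continuous.tendsto x).comp hb
      refine h1.congr fun n => ?_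
      exact hJsum b n
  · intro a n m hnm
    rw [← J.norm_map, ← J.norm_map (∑ i ∈ Finset.range m, a i • Q (f i)), hJsum, hJsum]
    exact hfm a n m hnm

end Embed

end H77MB
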