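import Mathlib

set_option autoImplicit false
open Filter Topology

namespace H77MB

/-- real `ℓ²` -/
abbrev H : Type := lp (fun _ : ℕ => ℝ) 2

/-- coordinate projections -/
noncomputable def P (n : ℕ) (x : H) : H := ∑ i ∈ Finset.range n, lp.single 2 i (x i)

theorem P_apply (n : ℕ) (x : H) (j : ℕ) : (P n x : ℕ → ℝ) j = if j < n then x j else 0 := by
  rw [P, lp.coeFn_sum, Finset.sum_apply]
  simp only [lp.coeFn_single]
  by_cases h : j < n
  · rw [if_pos h, Finset.sum_eq_single j]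
    · simp
    · intro b _ hb
      rw [Pi.single_apply, if_neg (Ne.symm hb)]
    · intro h1
      exact absurd (Finset.mem_range.2 h) h1
  · rw [if_neg h]
    apply Finset.sum_eq_zero
    intro b hb
    rw [Finset.mem_range] at hb
    rw [Pi.single_apply, if_neg (by omega)]

theorem P_norm_le (n : ℕ) (x : H) : ‖P n x‖ ≤ ‖x‖ := by
  have h2 : (0 : ℝ) < (2 : ENNReal).toReal := by norm_num
  have h1 := lp.norm_sum_single h2 (fun i => x i) (Finset.range n)
  have h3 := lp.sum_rpow_le_norm_rpow h2 x (Finset.range n)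
  rw [← h1] at h3
  exact (Real.rpow_le_rpow_iff (norm_nonneg _) (norm_nonneg _) h2).1 h3

theorem P_tendsto (x : H) : Tendsto (fun n => P n x) atTop (𝓝 x) := by
  have h := lp.hasSum_single (p := 2) (by norm_num) x
  exact h.tendsto_sum_nat

theorem abs_coord_le (x : H) (i : ℕ) : |x i| ≤ ‖x‖ := by
  have := lp.norm_apply_le_norm (p := 2) (by norm_num) x i
  simpa using this

theorem summ_aux (j : ℕ) (x : H) :
    Summable (fun i : ℕ => (1/2 : ℝ) ^ (i + 1) * ((1/2 : ℝ) ^ j) ^ i * x i) := by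
  apply Summable.of_norm_bounded (g := fun i : ℕ => ‖x‖ * (1/2 : ℝ) ^ i)
  · exact (summable_geometric_of_lt_one (by norm_num) (by norm_num)).mul_left _
  · intro i
    rw [Real.norm_eq_abs, abs_mul, abs_mul]
    have h1 := abs_coord_le x i
    have h2 : |((1/2 : ℝ) ^ j) ^ i| ≤ 1 := by
      rw [abs_of_nonneg (by positivity)]
      exact pow_le_one₀ (by positivity) (pow_le_one₀ (by norm_num) (by norm_num))
    have h3 : |(1/2 : ℝ) ^ (i + 1)| ≤ (1/2 : ℝ) ^ i := by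
      rw [abs_of_nonneg (by positivity), pow_succ]
      have : (0 : ℝ) ≤ (1/2 : ℝ) ^ i := by positivity
      linarith
    calc |(1/2 : ℝ) ^ (i + 1)| * |((1/2 : ℝ) ^ j) ^ i| * |x i|
        ≤ (1/2 : ℝ) ^ i * 1 * ‖x‖ := by gcongr
      _ = ‖x‖ * (1/2 : ℝ) ^ i := by ring

/-- analytic type functional -/
noncomputable def phi (j : ℕ) (x : H) : ℝ :=
  ∑' i : ℕ, (1/2 : ℝ) ^ (i + 1) * ((1/2 : ℝ) ^ j) ^ i * x i

theorem phi_tail_le (j n : ℕ) (x : H) (C : ℝ) (hC : ∀ i, |x i| ≤ C) (hx : ∀ i, i < n → x i = 0) :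
    |phi j x| ≤ (1/2 : ℝ) ^ n * C := by
  have hC0 : 0 ≤ C := le_trans (abs_nonneg _) (hC 0)
  rw [phi, ← (summ_aux j x).sum_add_tsum_nat_add n]
  have h0 : ∑ i ∈ Finset.range n, (1/2 : ℝ) ^ (i + 1) * ((1/2 : ℝ) ^ j) ^ i * x i = 0 := by
    apply Finset.sum_eq_zero
    intro i hi
    rw [hx i (Finset.mem_range.1 hi), mul_zero]
  rw [h0, zero_add]
  have hb : ∀ i : ℕ, ‖(1/2 : ℝ) ^ (i + n + 1) * ((1/2 : ℝ) ^ j) ^ (i + n) * x (i + n)‖
      ≤ ((1/2 : ℝ) ^ n * C * (1/2)) * (1/2 : ℝ) ^ i := by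
    intro i
    rw [Real.norm_eq_abs, abs_mul, abs_mul]
    have h1 := hC (i + n)
    have h2 : |((1/2 : ℝ) ^ j) ^ (i + n)| ≤ 1 := by
      rw [abs_of_nonneg (by positivity)]
      exact pow_le_one₀ (by positivity) (pow_le_one₀ (by norm_num) (by norm_num))
    have h3 : |(1/2 : ℝ) ^ (i + n + 1)| = (1/2 : ℝ) ^ n * (1/2) * (1/2 : ℝ) ^ i := by
      rw [abs_of_nonneg (by positivity)]
      ring
    rw [h3]
    calc (1/2 : ℝ) ^ n * (1/2) * (1/2 : ℝ) ^ i * |((1/2 : ℝ) ^ j) ^ (i + n)| * |x (i + n)|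
        ≤ (1/2 : ℝ) ^ n * (1/2) * (1/2 : ℝ) ^ i * 1 * C := by gcongr
      _ = ((1/2 : ℝ) ^ n * C * (1/2)) * (1/2 : ℝ) ^ i := by ring
  have hs : HasSum (fun i : ℕ => ((1/2 : ℝ) ^ n * C * (1/2)) * (1/2 : ℝ) ^ i)
      (((1/2 : ℝ) ^ n * C * (1/2)) * 2) := by
    have := hasSum_geometric_two
    exact this.mul_left _
  have := tsum_of_norm_bounded hs hb
  rw [Real.norm_eq_abs] at this
  calc _ ≤ (((1/2 : ℝ) ^ n * C * (1/2)) * 2) := this
    _ = (1/2 : ℝ) ^ n * C := by ring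

theorem phi_le (j : ℕ) (x : H) : |phi j x| ≤ ‖x‖ := by
  have := phi_tail_le j 0 x ‖x‖ (abs_coord_le x) (by intro i hi; omega)
  simpa using this

theorem phi_add (j : ℕ) (x y : H) : phi j (x + y) = phi j x + phi j y := by
  rw [phi, phi, phi, ← (summ_aux j x).tsum_add (summ_aux j y)]
  congr 1
  ext i
  rw [lp.coeFn_add, Pi.add_apply]
  ring

theorem phi_smul (j : ℕ) (r : ℝ) (x : H) : phi j (r • x) = r * phi j x := by
  rw [phi, phi, ← tsum_mul_left]
  congr 1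
  ext i
  rw [lp.coeFn_smul, Pi.smul_apply, smul_eq_mul]
  ring

/-- scaled functionals -/
noncomputable def psiL (j : ℕ) : H →ₗ[ℝ] ℝ where
  toFun x := (1/2 : ℝ) ^ (j + 3) * phi j x
  map_add' x y := by rw [phi_add]; ring
  map_smul' r x := by rw [phi_smul, RingHom.id_apply, smul_eq_mul]; ring

theorem psiL_le (j : ℕ) (x : H) : |psiL j x| ≤ (1/2 : ℝ) ^ (j + 3) * ‖x‖ := by
  show |(1/2 : ℝ) ^ (j + 3) * phi j x| ≤ _
  rw [abs_mul, abs_of_nonneg (by positivity : (0:ℝ) ≤ (1/2 : ℝ) ^ (j + 3))]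
  have := phi_le j x
  gcongr

noncomputable def psi (j : ℕ) : H →L[ℝ] ℝ :=
  (psiL j).mkContinuous ((1/2 : ℝ) ^ (j + 3)) (fun x => by
    rw [Real.norm_eq_abs]
    exact psiL_le j x)

theorem psi_apply (j : ℕ) (x : H) : psi j x = (1/2 : ℝ) ^ (j + 3) * phi j x := rfl

theorem psi_le (j : ℕ) (x : H) : |psi j x| ≤ (1/2 : ℝ) ^ (j + 3) * ‖x‖ := psiL_le j x

theorem psi_single (j i : ℕ) :
    psi j (lp.single 2 i (1 : ℝ)) = (1/2 : ℝ) ^ (j + 3) * ((1/2 : ℝ) ^ (i + 1) * ((1/2 : ℝ) ^ j) ^ i) := by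
  rw [psi_apply, phi]
  congr 1
  rw [tsum_eq_single i]
  · rw [lp.coeFn_single, Pi.single_eq_same]
    ring
  · intro k hk
    rw [lp.coeFn_single, Pi.single_apply, if_neg hk, mul_zero]

/-- zeros of a power series along the points (1/2)^j -/
theorem finite_zeros (a : ℕ → ℝ) (ha : Summable (fun i => |a i|)) (hne : ∃ i, a i ≠ 0) :
    {j : ℕ | ∑' i : ℕ, a i * ((1/2 : ℝ) ^ j) ^ i = 0}.Finite := by
  classical
  obtain ⟨m, hm, hlt⟩ : ∃ m, a m ≠ 0 ∧ ∀ i, i < m → a i = 0 := by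
    refine ⟨Nat.find hne, Nat.find_spec hne, ?_⟩
    intro i hi
    by_contra h
    exact Nat.find_min hne hi h
  set A := ∑' i, |a i| with hA
  have key : ∀ j : ℕ, ∑' i : ℕ, a i * ((1/2 : ℝ) ^ j) ^ i = 0 → |a m| ≤ (1/2 : ℝ) ^ j * A := by
    intro j hj
    set t : ℝ := (1/2 : ℝ) ^ j with ht
    have ht0 : 0 < t := by positivity
    have ht1 : t ≤ 1 := pow_le_one₀ (by norm_num) (by norm_num)
    have hsum : Summable (fun i : ℕ => a i * t ^ i) := by
      apply Summable.of_norm_bounded ha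
      intro i
      rw [Real.norm_eq_abs, abs_mul, abs_of_nonneg (by positivity : (0:ℝ) ≤ t ^ i)]
      exact mul_le_of_le_one_right (abs_nonneg _) (pow_le_one₀ ht0.le ht1)
    rw [← hsum.sum_add_tsum_nat_add (m + 1), Finset.sum_range_succ,
      Finset.sum_eq_zero (fun i hi => by rw [hlt i (Finset.mem_range.1 hi), zero_mul]),
      zero_add] at hj
    have hshift : ∑' i : ℕ, a (i + (m + 1)) * t ^ (i + (m + 1))
        = t ^ (m + 1) * ∑' i : ℕ, a (i + (m + 1)) * t ^ i := by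
      rw [← tsum_mul_left]
      congr 1
      ext i
      ring
    rw [hshift] at hj
    have hha : Summable (fun i => |a (i + (m + 1))|) := (summable_nat_add_iff (f := fun i => |a i|) (m + 1)).2 ha
    have hle : |∑' i : ℕ, a (i + (m + 1)) * t ^ i| ≤ A := by
      have h1 : ‖∑' i : ℕ, a (i + (m + 1)) * t ^ i‖ ≤ ∑' i, |a (i + (m + 1))| := by
        apply tsum_of_norm_bounded hha.hasSum
        intro i
        rw [Real.norm_eq_abs, abs_mul, abs_of_nonneg (by positivity : (0:ℝ) ≤ t ^ i)]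
        exact mul_le_of_le_one_right (abs_nonneg _) (pow_le_one₀ ht0.le ht1)
      have h2 : ∑' i, |a (i + (m + 1))| ≤ A := by
        rw [hA, ← ha.sum_add_tsum_nat_add (m + 1)]
        have : 0 ≤ ∑ i ∈ Finset.range (m + 1), |a i| := Finset.sum_nonneg fun i _ => abs_nonneg _
        linarith
      rw [Real.norm_eq_abs] at h1
      exact le_trans h1 h2
    have h3 : a m = - (t * ∑' i : ℕ, a (i + (m + 1)) * t ^ i) := by
      have h4 : t ^ m * (a m + t * ∑' i : ℕ, a (i + (m + 1)) * t ^ i) = 0 := by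
        rw [← hj]
        ring
      rcases mul_eq_zero.1 h4 with h5 | h5
      · exact absurd h5 (by positivity)
      · linarith
    rw [h3, abs_neg, abs_mul, abs_of_pos ht0]
    gcongr
  have hpos : 0 < |a m| := abs_pos.2 hm
  have hlim : Tendsto (fun j : ℕ => (1/2 : ℝ) ^ j * A) atTop (𝓝 (0 * A)) :=
    (tendsto_pow_atTop_nhds_zero_of_lt_one (by norm_num) (by norm_num)).mul_const A
  rw [zero_mul] at hlim
  have hev : ∀ᶠ j : ℕ in atTop, (1/2 : ℝ) ^ j * A < |a m| := hlim.eventually_lt_const hpos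
  obtain ⟨N, hN⟩ := eventually_atTop.1 hev
  apply (Set.finite_Iio N).subset
  intro j hj
  rw [Set.mem_Iio]
  by_contra hge
  have h1 := key j hj
  have h2 := hN j (by omega)
  linarith

theorem psi_zeros_finite (x : H) (hx : x ≠ 0) : {j : ℕ | psi j x = 0}.Finite := by
  have hne : ∃ i, (1/2 : ℝ) ^ (i + 1) * x i ≠ 0 := by
    by_contra hcon
    push Not at hcon
    apply hx
    ext i
    have h1 := hcon i
    rcases mul_eq_zero.1 h1 with h2 | h2
    · exact absurd h2 (by positivity)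
    · simpa using h2
  have hs : Summable (fun i => |(1/2 : ℝ) ^ (i + 1) * x i|) := by
    have := (summ_aux 0 x).abs
    refine this.congr fun i => ?_
    simp
  refine (finite_zeros _ hs hne).subset ?_
  intro j hj
  have h1 : psi j x = 0 := hj
  rw [psi_apply] at h1
  rcases mul_eq_zero.1 h1 with h2 | h2
  · exact absurd h2 (by positivity)
  · show ∑' i : ℕ, (1/2 : ℝ) ^ (i + 1) * x i * ((1/2 : ℝ) ^ j) ^ i = 0
    rw [← h2, phi]
    congr 1
    ext i
    ring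

/-- injectivity of the adjoint -/
theorem adjoint_inj (W : ℕ → ℝ) (hs : Summable (fun j => |(1/2 : ℝ) ^ (j + 3) * W j|))
    (h : ∀ i : ℕ, ∑' j : ℕ, W j * psi j (lp.single 2 i (1 : ℝ)) = 0) : ∀ j, W j = 0 := by
  by_contra hcon
  push Not at hcon
  obtain ⟨j0, hj0⟩ := hcon
  have hfin := finite_zeros (fun j => (1/2 : ℝ) ^ (j + 3) * W j) hs
    ⟨j0, mul_ne_zero (by positivity) hj0⟩
  apply Set.infinite_univ (α := ℕ)
  refine hfin.subset ?_
  intro i _
  show ∑' j : ℕ, (1/2 : ℝ) ^ (j + 3) * W j * ((1/2 : ℝ) ^ i) ^ j = 0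
  have h1 := h i
  have h2 : ∑' j : ℕ, W j * psi j (lp.single 2 i (1 : ℝ))
      = (1/2 : ℝ) ^ (i + 1) * ∑' j : ℕ, (1/2 : ℝ) ^ (j + 3) * W j * ((1/2 : ℝ) ^ i) ^ j := by
    rw [← tsum_mul_left]
    congr 1
    ext j
    rw [psi_single]
    have : ((1/2 : ℝ) ^ j) ^ i = ((1/2 : ℝ) ^ i) ^ j := by
      rw [← pow_mul, ← pow_mul, mul_comm]
    rw [this]
    ring
  rw [h2] at h1
  rcases mul_eq_zero.1 h1 with h3 | h3
  · exact absurd h3 (by positivity)
  · exact h3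

end H77MB
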