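import Pool.Agent.H77MB.MB2

set_option autoImplicit false
open Filter Topology

namespace H77MB

theorem kappa_le (j : ℕ) : ((1/2 : ℝ) ^ (j + 3)) ^ 6 ≤ (1/2 : ℝ) ^ 18 * (1/2 : ℝ) ^ j := by
  have h1 : ((1/2 : ℝ) ^ (j + 3)) ^ 6 = (1/2 : ℝ) ^ 18 * (1/2 : ℝ) ^ j * (1/2 : ℝ) ^ (5 * j) := by
    ring
  rw [h1]
  exact mul_le_of_le_one_right (by positivity) (pow_le_one₀ (by norm_num) (by norm_num))

theorem psi_pow_le (j : ℕ) (x : H) (C : ℝ) (hC : ‖x‖ ≤ C) :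
    |psi j x| ^ 6 ≤ C ^ 6 * (1/2 : ℝ) ^ j := by
  have h1 := psi_le j x
  have hC0 : 0 ≤ C := le_trans (norm_nonneg _) hC
  calc |psi j x| ^ 6 ≤ ((1/2 : ℝ) ^ (j + 3) * C) ^ 6 := by
        apply pow_le_pow_left₀ (abs_nonneg _)
        exact le_trans h1 (by gcongr)
    _ = ((1/2 : ℝ) ^ (j + 3)) ^ 6 * C ^ 6 := by ring
    _ ≤ ((1/2 : ℝ) ^ 18 * (1/2 : ℝ) ^ j) * C ^ 6 := by
        gcongr
        exact kappa_le j
    _ = C ^ 6 * (1/2 : ℝ) ^ j * (1/2 : ℝ) ^ 18 := by ring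
    _ ≤ C ^ 6 * (1/2 : ℝ) ^ j := mul_le_of_le_one_right (by positivity) (by norm_num)

theorem summ_psi6 (x : H) : Summable (fun j => psi j x ^ 6) := by
  apply Summable.of_norm_bounded (g := fun j : ℕ => ‖x‖ ^ 6 * (1/2 : ℝ) ^ j)
  · exact (summable_geometric_of_lt_one (by norm_num) (by norm_num)).mul_left _
  · intro j
    rw [norm_pow, Real.norm_eq_abs]
    exact psi_pow_le j x _ le_rfl

noncomputable def G (x : H) : ℝ := ∑' j, psi j x ^ 6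

noncomputable def M (x : H) : ℝ := ‖x‖ ^ 6 + G x

theorem G_nonneg (x : H) : 0 ≤ G x := tsum_nonneg fun j => by positivity

theorem G_le (x : H) : G x ≤ ‖x‖ ^ 6 * 2 := by
  have hs : HasSum (fun j : ℕ => ‖x‖ ^ 6 * (1/2 : ℝ) ^ j) (‖x‖ ^ 6 * 2) :=
    hasSum_geometric_two.mul_left _
  rw [G, ← hs.tsum_eq]
  apply (summ_psi6 x).tsum_le_tsum _ hs.summable
  intro j
  have := psi_pow_le j x _ le_rfl
  rw [← abs_pow, abs_of_nonneg (by positivity)] at this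
  exact this

/-! ### the contractions -/

noncomputable def cc (n : ℕ) : ℝ := 1 - 1 / ((n : ℝ) + 2)

noncomputable def Dop (n i : ℕ) (x : H) : H := cc n • P n x + (cc (n + 1) - cc n) • P i x

theorem cc_nonneg (n : ℕ) : 0 ≤ cc n := by
  unfold cc
  have : 1 / ((n : ℝ) + 2) ≤ 1 := by
    rw [div_le_one (by positivity)]
    have : (0 : ℝ) ≤ n := Nat.cast_nonneg n
    linarith
  linarith

theorem cc_le_one (n : ℕ) : cc n ≤ 1 := by
  unfold cc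
  have : 0 ≤ 1 / ((n : ℝ) + 2) := by positivity
  linarith

theorem cc_diff (n : ℕ) : cc (n + 1) - cc n = 1 / (((n : ℝ) + 2) * ((n : ℝ) + 3)) := by
  unfold cc
  push_cast
  have h2 : (n : ℝ) + 2 ≠ 0 := by positivity
  have h3 : (n : ℝ) + 3 ≠ 0 := by positivity
  have h4 : (n : ℝ) + 1 + 2 ≠ 0 := by positivity
  field_simp
  ring

theorem cc_diff_nonneg (n : ℕ) : 0 ≤ cc (n + 1) - cc n := by
  rw [cc_diff]
  positivity

theorem Dop_norm_le (n i : ℕ) (x : H) : ‖Dop n i x‖ ≤ cc (n + 1) * ‖x‖ := by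
  unfold Dop
  refine (norm_add_le _ _).trans ?_
  rw [norm_smul, norm_smul, Real.norm_of_nonneg (cc_nonneg n),
    Real.norm_of_nonneg (cc_diff_nonneg n)]
  have h1 := mul_le_mul_of_nonneg_left (P_norm_le n x) (cc_nonneg n)
  have h2 := mul_le_mul_of_nonneg_left (P_norm_le i x) (cc_diff_nonneg n)
  nlinarith

theorem phi_sub (j : ℕ) (x y : H) : phi j (x - y) = phi j x - phi j y := by
  have h := phi_add j (x - y) y
  rw [sub_add_cancel] at h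
  linarith

theorem phi_P_le (j n : ℕ) (x : H) : |phi j (P n x)| ≤ |phi j x| + (1/2 : ℝ) ^ n * ‖x‖ := by
  have h1 : |phi j (x - P n x)| ≤ (1/2 : ℝ) ^ n * ‖x‖ := by
    apply phi_tail_le
    · intro i
      rw [lp.coeFn_sub, Pi.sub_apply, P_apply]
      by_cases h : i < n
      · rw [if_pos h, sub_self, abs_zero]
        exact norm_nonneg _
      · rw [if_neg h, sub_zero]
        exact abs_coord_le x i
    · intro i hi
      rw [lp.coeFn_sub, Pi.sub_apply, P_apply, if_pos hi, sub_self]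
  rw [phi_sub] at h1
  have h2 := abs_sub_abs_le_abs_sub (phi j (P n x)) (phi j x)
  rw [abs_sub_comm] at h2
  linarith

theorem phi_Dop_le (j n i : ℕ) (x : H) :
    |phi j (Dop n i x)| ≤ |phi j x| + ((1/2 : ℝ) ^ n + (cc (n + 1) - cc n)) * ‖x‖ := by
  unfold Dop
  rw [phi_add, phi_smul, phi_smul]
  refine (abs_add_le _ _).trans ?_
  rw [abs_mul, abs_mul, abs_of_nonneg (cc_nonneg n), abs_of_nonneg (cc_diff_nonneg n)]
  have h1 := phi_P_le j n x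
  have h2 : |phi j (P i x)| ≤ ‖x‖ := (phi_le j _).trans (P_norm_le i x)
  have h3 := cc_le_one n
  have h4 := cc_nonneg n
  have h5 := mul_le_mul_of_nonneg_left h2 (cc_diff_nonneg n)
  have h6 : cc n * |phi j (P n x)| ≤ |phi j (P n x)| :=
    mul_le_of_le_one_left (abs_nonneg _) h3
  linarith

theorem pow6_le (a h δ : ℝ) (ha : 0 ≤ a) (hah : a ≤ h) (hδ : 0 ≤ δ) (hδ2 : δ ≤ 2) :
    (a + δ * h) ^ 6 ≤ a ^ 6 + 1458 * δ * h ^ 6 := by
  have hh : 0 ≤ h := le_trans ha hah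
  set b := a + δ * h with hb
  have hab : a ≤ b := by
    have := mul_nonneg hδ hh
    linarith
  have hb3 : b ≤ 3 * h := by nlinarith
  have hb0 : 0 ≤ b := le_trans ha hab
  have h1 : b ^ 6 - a ^ 6 = (b - a) * (b ^ 5 + b ^ 4 * a + b ^ 3 * a ^ 2 + b ^ 2 * a ^ 3
      + b * a ^ 4 + a ^ 5) := by ring
  have e1 : b ^ 5 ≤ (3 * h) ^ 5 := pow_le_pow_left₀ hb0 hb3 5
  have e2 : b ^ 4 * a ≤ (3 * h) ^ 5 := by
    calc b ^ 4 * a ≤ b ^ 4 * b := by gcongr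
      _ = b ^ 5 := by ring
      _ ≤ _ := e1
  have e3 : b ^ 3 * a ^ 2 ≤ (3 * h) ^ 5 := by
    calc b ^ 3 * a ^ 2 ≤ b ^ 3 * b ^ 2 := by gcongr
      _ = b ^ 5 := by ring
      _ ≤ _ := e1
  have e4 : b ^ 2 * a ^ 3 ≤ (3 * h) ^ 5 := by
    calc b ^ 2 * a ^ 3 ≤ b ^ 2 * b ^ 3 := by gcongr
      _ = b ^ 5 := by ring
      _ ≤ _ := e1
  have e5 : b * a ^ 4 ≤ (3 * h) ^ 5 := by
    calc b * a ^ 4 ≤ b * b ^ 4 := by gcongr
      _ = b ^ 5 := by ring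
      _ ≤ _ := e1
  have e6 : a ^ 5 ≤ (3 * h) ^ 5 := pow_le_pow_left₀ ha (le_trans hab hb3) 5
  have h2 : (b - a) * (b ^ 5 + b ^ 4 * a + b ^ 3 * a ^ 2 + b ^ 2 * a ^ 3
      + b * a ^ 4 + a ^ 5) ≤ (b - a) * (6 * (3 * h) ^ 5) := by
    apply mul_le_mul_of_nonneg_left _ (by linarith)
    linarith
  have h3 : (b - a) * (6 * (3 * h) ^ 5) = 1458 * δ * h ^ 6 := by
    rw [hb]
    ring
  linarith

theorem M_Dop_le (n i : ℕ) (x : H) : M (Dop n i x) ≤ M x := by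
  have hn : (0 : ℝ) ≤ n := Nat.cast_nonneg n
  have hpow : (1/2 : ℝ) ^ n ≤ 3 / ((n : ℝ) + 3) := by
    rw [le_div_iff₀ (by positivity)]
    have h1 : ((n : ℝ) + 1) ≤ 2 ^ n := by
      have := Nat.lt_two_pow_self (n := n)
      exact_mod_cast this
    have h2 : (1 : ℝ) ≤ 2 ^ n := one_le_pow₀ (by norm_num)
    have h3 : (1/2 : ℝ) ^ n * 2 ^ n = 1 := by
      rw [← mul_pow]
      norm_num
    have h4 : (0 : ℝ) ≤ (1/2 : ℝ) ^ n := by positivity
    nlinarith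
  have hdiff : cc (n + 1) - cc n ≤ (1/2) / ((n : ℝ) + 3) := by
    rw [cc_diff, div_le_div_iff₀ (by positivity) (by positivity)]
    nlinarith
  set δ : ℝ := (1/2 : ℝ) ^ n + (cc (n + 1) - cc n) with hδ
  have hδ0 : 0 ≤ δ := add_nonneg (by positivity) (cc_diff_nonneg n)
  have hδle : δ ≤ (7/2) / ((n : ℝ) + 3) := by
    have : (7/2) / ((n : ℝ) + 3) = 3 / ((n : ℝ) + 3) + (1/2) / ((n : ℝ) + 3) := by
      rw [← add_div]
      norm_num
    rw [this]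
    linarith
  have hδ2 : δ ≤ 2 := by
    have : (7/2) / ((n : ℝ) + 3) ≤ 2 := by
      rw [div_le_iff₀ (by positivity)]
      linarith
    linarith
  have hh : 0 ≤ ‖x‖ := norm_nonneg _
  have hpt : ∀ j, psi j (Dop n i x) ^ 6 ≤ psi j x ^ 6
      + (1458 * δ * ‖x‖ ^ 6 * (1/2 : ℝ) ^ 18) * (1/2 : ℝ) ^ j := by
    intro j
    rw [psi_apply, psi_apply, mul_pow, mul_pow]
    have h1 : phi j (Dop n i x) ^ 6 ≤ (|phi j x| + δ * ‖x‖) ^ 6 := by
      have := phi_Dop_le j n i x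
      have h0 := pow_le_pow_left₀ (abs_nonneg _) this 6
      rwa [← abs_pow, abs_of_nonneg (by positivity : (0:ℝ) ≤ phi j (Dop n i x) ^ 6)] at h0
    have h2 := pow6_le |phi j x| ‖x‖ δ (abs_nonneg _) (phi_le j x) hδ0 hδ2
    have h3 : |phi j x| ^ 6 = phi j x ^ 6 := by
      rw [← abs_pow, abs_of_nonneg (by positivity)]
    rw [h3] at h2
    have h4 : (0:ℝ) ≤ 1458 * δ * ‖x‖ ^ 6 := by positivity
    calc ((1/2 : ℝ) ^ (j + 3)) ^ 6 * phi j (Dop n i x) ^ 6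
        ≤ ((1/2 : ℝ) ^ (j + 3)) ^ 6 * (phi j x ^ 6 + 1458 * δ * ‖x‖ ^ 6) := by
          gcongr
          exact h1.trans h2
      _ = ((1/2 : ℝ) ^ (j + 3)) ^ 6 * phi j x ^ 6
          + ((1/2 : ℝ) ^ (j + 3)) ^ 6 * (1458 * δ * ‖x‖ ^ 6) := by ring
      _ ≤ ((1/2 : ℝ) ^ (j + 3)) ^ 6 * phi j x ^ 6
          + ((1/2 : ℝ) ^ 18 * (1/2 : ℝ) ^ j) * (1458 * δ * ‖x‖ ^ 6) := by
          gcongr
          exact kappa_le j
      _ = _ := by ring
  have hG : G (Dop n i x) ≤ G x + (1458 * δ * ‖x‖ ^ 6 * (1/2 : ℝ) ^ 18) * 2 := by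
    have hs : HasSum (fun j : ℕ => (1458 * δ * ‖x‖ ^ 6 * (1/2 : ℝ) ^ 18) * (1/2 : ℝ) ^ j)
        ((1458 * δ * ‖x‖ ^ 6 * (1/2 : ℝ) ^ 18) * 2) := hasSum_geometric_two.mul_left _
    rw [G, G, ← hs.tsum_eq, ← (summ_psi6 x).tsum_add hs.summable]
    exact (summ_psi6 _).tsum_le_tsum hpt ((summ_psi6 x).add hs.summable)
  have hnorm : ‖Dop n i x‖ ^ 6 ≤ (1 - 1 / ((n : ℝ) + 3)) * ‖x‖ ^ 6 := by
    have h1 := pow_le_pow_left₀ (norm_nonneg _) (Dop_norm_le n i x) 6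
    have h2 : cc (n + 1) = 1 - 1 / ((n : ℝ) + 3) := by
      unfold cc
      push_cast
      ring
    have h3 : cc (n + 1) ^ 6 ≤ cc (n + 1) := by
      have := pow_le_of_le_one (cc_nonneg (n + 1)) (cc_le_one (n + 1)) (n := 6) (by norm_num)
      exact this
    calc ‖Dop n i x‖ ^ 6 ≤ (cc (n + 1) * ‖x‖) ^ 6 := h1
      _ = cc (n + 1) ^ 6 * ‖x‖ ^ 6 := by ring
      _ ≤ cc (n + 1) * ‖x‖ ^ 6 := by gcongr
      _ = _ := by rw [h2]
  have hfin : 1458 * δ * (1/2 : ℝ) ^ 18 * 2 ≤ 1 / ((n : ℝ) + 3) := by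
    have h1 : 1458 * δ * (1/2 : ℝ) ^ 18 * 2 ≤ 1458 * ((7/2) / ((n : ℝ) + 3)) * (1/2 : ℝ) ^ 18 * 2 := by
      gcongr
    refine h1.trans ?_
    rw [show 1458 * ((7/2) / ((n : ℝ) + 3)) * (1/2 : ℝ) ^ 18 * 2
      = (1458 * (7/2) * (1/2 : ℝ) ^ 18 * 2) / ((n : ℝ) + 3) by ring]
    apply div_le_div_of_nonneg_right _ (by positivity)
    norm_num
  unfold M
  have h6 : (0:ℝ) ≤ ‖x‖ ^ 6 := by positivity
  have := mul_le_mul_of_nonneg_right hfin h6
  nlinarith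

/-! ### first order condition -/

theorem pow6_expand_le (a b r : ℝ) (hr : |r| ≤ 1) :
    (a + r * b) ^ 6 ≤ a ^ 6 + 6 * r * (a ^ 5 * b) + r ^ 2 * (|a| + |b|) ^ 6 := by
  have hp := abs_nonneg a
  have hq := abs_nonneg b
  have habs : ∀ k l m : ℕ, r ^ k * a ^ l * b ^ m ≤ |a| ^ l * |b| ^ m := by
    intro k l m
    calc r ^ k * a ^ l * b ^ m ≤ |r ^ k * a ^ l * b ^ m| := le_abs_self _
      _ = |r| ^ k * (|a| ^ l * |b| ^ m) := by
          rw [abs_mul, abs_mul, abs_pow, abs_pow, abs_pow]; ring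
      _ ≤ 1 * (|a| ^ l * |b| ^ m) := by
          gcongr
          exact pow_le_one₀ (abs_nonneg r) hr
      _ = _ := one_mul _
  have h0 := habs 0 4 2
  have h1 := habs 1 3 3
  have h2 := habs 2 2 4
  have h3 := habs 3 1 5
  have h4 := habs 4 0 6
  have hkey : 15 * (r ^ 0 * a ^ 4 * b ^ 2) + 20 * (r ^ 1 * a ^ 3 * b ^ 3)
      + 15 * (r ^ 2 * a ^ 2 * b ^ 4) + 6 * (r ^ 3 * a ^ 1 * b ^ 5) + (r ^ 4 * a ^ 0 * b ^ 6)
      ≤ (|a| + |b|) ^ 6 := by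
    have e : (|a| + |b|) ^ 6 = |a| ^ 6 + 6 * (|a| ^ 5 * |b|) + (15 * (|a| ^ 4 * |b| ^ 2)
      + 20 * (|a| ^ 3 * |b| ^ 3) + 15 * (|a| ^ 2 * |b| ^ 4) + 6 * (|a| ^ 1 * |b| ^ 5)
      + (|a| ^ 0 * |b| ^ 6)) := by ring
    rw [e]
    have p1 : 0 ≤ |a| ^ 6 := by positivity
    have p2 : 0 ≤ |a| ^ 5 * |b| := by positivity
    linarith
  have hr2 : 0 ≤ r ^ 2 := sq_nonneg r
  have := mul_le_mul_of_nonneg_left hkey hr2
  have e2 : (a + r * b) ^ 6 = a ^ 6 + 6 * r * (a ^ 5 * b)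
      + r ^ 2 * (15 * (r ^ 0 * a ^ 4 * b ^ 2) + 20 * (r ^ 1 * a ^ 3 * b ^ 3)
      + 15 * (r ^ 2 * a ^ 2 * b ^ 4) + 6 * (r ^ 3 * a ^ 1 * b ^ 5) + (r ^ 4 * a ^ 0 * b ^ 6)) := by
    ring
  rw [e2]
  linarith

theorem summ_S2 (x y : H) : Summable (fun j => (|psi j x| + |psi j y|) ^ 6) := by
  apply Summable.of_norm_bounded (g := fun j : ℕ => (‖x‖ + ‖y‖) ^ 6 * (1/2 : ℝ) ^ j)
  · exact (summable_geometric_of_lt_one (by norm_num) (by norm_num)).mul_left _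
  · intro j
    rw [Real.norm_of_nonneg (by positivity)]
    have h1 := psi_le j x
    have h2 := psi_le j y
    calc (|psi j x| + |psi j y|) ^ 6 ≤ ((1/2 : ℝ) ^ (j + 3) * (‖x‖ + ‖y‖)) ^ 6 := by
          apply pow_le_pow_left₀ (by positivity)
          linarith
      _ = ((1/2 : ℝ) ^ (j + 3)) ^ 6 * (‖x‖ + ‖y‖) ^ 6 := by ring
      _ ≤ ((1/2 : ℝ) ^ 18 * (1/2 : ℝ) ^ j) * (‖x‖ + ‖y‖) ^ 6 := by
          gcongr
          exact kappa_le j
      _ = (‖x‖ + ‖y‖) ^ 6 * (1/2 : ℝ) ^ j * (1/2 : ℝ) ^ 18 := by ring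
      _ ≤ _ := mul_le_of_le_one_right (by positivity) (by norm_num)

theorem summ_S1 (x y : H) : Summable (fun j => psi j x ^ 5 * psi j y) := by
  apply Summable.of_norm_bounded (summ_S2 x y)
  intro j
  rw [Real.norm_eq_abs, abs_mul, abs_pow]
  have h1 := abs_nonneg (psi j x)
  have h2 := abs_nonneg (psi j y)
  calc |psi j x| ^ 5 * |psi j y| ≤ (|psi j x| + |psi j y|) ^ 5 * (|psi j x| + |psi j y|) := by
        gcongr
        · linarith
        · linarith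
    _ = _ := by ring

/-- the derivative functional -/
noncomputable def Lam (x y : H) : ℝ := ‖x‖ ^ 4 * inner ℝ x y + ∑' j, psi j x ^ 5 * psi j y

theorem Lam_zero (x y : H) (h : ∀ r : ℝ, M x ≤ M (x + r • y)) : Lam x y = 0 := by
  set A := ‖x‖ ^ 2 with hA
  set B := inner ℝ x y with hB
  set C := ‖y‖ ^ 2 with hC
  set S0 := G x with hS0
  set S1 := ∑' j, psi j x ^ 5 * psi j y with hS1
  set S2 := ∑' j, (|psi j x| + |psi j y|) ^ 6 with hS2
  have hnorm : ∀ r : ℝ, ‖x + r • y‖ ^ 6 = (A + 2 * r * B + r ^ 2 * C) ^ 3 := by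
    intro r
    have h1 := norm_add_sq_real x (r • y)
    rw [inner_smul_right, norm_smul, mul_pow, Real.norm_eq_abs, sq_abs] at h1
    rw [show ‖x + r • y‖ ^ 6 = (‖x + r • y‖ ^ 2) ^ 3 by ring, h1]
    ring
  have hG : ∀ r : ℝ, |r| ≤ 1 → G (x + r • y) ≤ S0 + 6 * r * S1 + r ^ 2 * S2 := by
    intro r hr
    rw [G, hS0, G, hS1, hS2, ← tsum_mul_left, ← tsum_mul_left,
      ← (summ_psi6 x).tsum_add ((summ_S1 x y).mul_left _),
      ← ((summ_psi6 x).add ((summ_S1 x y).mul_left _)).tsum_add ((summ_S2 x y).mul_left _)]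
    apply (summ_psi6 _).tsum_le_tsum _
      (((summ_psi6 x).add ((summ_S1 x y).mul_left _)).add ((summ_S2 x y).mul_left _))
    intro j
    rw [map_add, map_smul, smul_eq_mul]
    exact pow6_expand_le _ _ _ hr
  let f : ℝ → ℝ := fun r => (A + 2 * r * B + r ^ 2 * C) ^ 3 + (S0 + 6 * r * S1 + r ^ 2 * S2)
  have hmin : IsLocalMin f 0 := by
    have hball : Metric.closedBall (0 : ℝ) 1 ∈ 𝓝 (0 : ℝ) := Metric.closedBall_mem_nhds _ one_pos
    filter_upwards [hball] with r hr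
    rw [Metric.mem_closedBall, Real.dist_eq, sub_zero] at hr
    have h1 := h r
    have h2 := hG r hr
    have h3 := hnorm r
    have h4 := hnorm 0
    unfold M at h1
    rw [zero_smul, add_zero] at h4
    show (A + 2 * 0 * B + 0 ^ 2 * C) ^ 3 + (S0 + 6 * 0 * S1 + 0 ^ 2 * S2) ≤
      (A + 2 * r * B + r ^ 2 * C) ^ 3 + (S0 + 6 * r * S1 + r ^ 2 * S2)
    rw [← h4, ← h3]
    have : S0 + 6 * 0 * S1 + 0 ^ 2 * S2 = S0 := by ring
    rw [this]
    linarith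
  have hd : HasDerivAt f (6 * (A ^ 2 * B + S1)) 0 := by
    have e1 : HasDerivAt (fun r : ℝ => A + 2 * r * B + r ^ 2 * C) (2 * B) 0 := by
      have a1 : HasDerivAt (fun r : ℝ => 2 * r * B) (2 * B) 0 := by
        have := ((hasDerivAt_id (0 : ℝ)).const_mul 2).mul_const B
        simpa using this
      have a2 : HasDerivAt (fun r : ℝ => r ^ 2 * C) 0 0 := by
        have := ((hasDerivAt_id (0 : ℝ)).pow 2).mul_const C
        simpa using this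
      have := (a1.const_add A).fun_add a2
      simpa using this
    have e2 : HasDerivAt (fun r : ℝ => S0 + 6 * r * S1 + r ^ 2 * S2) (6 * S1) 0 := by
      have a1 : HasDerivAt (fun r : ℝ => 6 * r * S1) (6 * S1) 0 := by
        have := ((hasDerivAt_id (0 : ℝ)).const_mul 6).mul_const S1
        simpa using this
      have a2 : HasDerivAt (fun r : ℝ => r ^ 2 * S2) 0 0 := by
        have := ((hasDerivAt_id (0 : ℝ)).pow 2).mul_const S2
        simpa using this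
      have := (a1.const_add S0).fun_add a2
      simpa using this
    have e3 := (e1.fun_pow 3).fun_add e2
    have e4 : (6 * (A ^ 2 * B + S1)) = ((3 : ℕ) : ℝ) * (A + 2 * 0 * B + 0 ^ 2 * C) ^ (3 - 1) * (2 * B)
        + 6 * S1 := by
      norm_num
      ring
    rw [e4]
    exact e3
  have hz := hmin.hasDerivAt_eq_zero hd
  have : A ^ 2 * B + S1 = 0 := by linarith
  unfold Lam
  rw [← this, hA]
  ring

end H77MB
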