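import Pool.Agent.H77MB.MB3

set_option autoImplicit false
open Filter Topology

namespace H77MB

theorem Lam_add (x y z : H) : Lam x (y + z) = Lam x y + Lam x z := by
  unfold Lam
  have h1 : ∑' j, psi j x ^ 5 * psi j (y + z)
      = ∑' j, psi j x ^ 5 * psi j y + ∑' j, psi j x ^ 5 * psi j z := by
    rw [← (summ_S1 x y).tsum_add (summ_S1 x z)]
    congr 1
    ext j
    rw [map_add]
    ring
  rw [h1, inner_add_right]
  ring

theorem Lam_smul (x : H) (r : ℝ) (y : H) : Lam x (r • y) = r * Lam x y := by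
  unfold Lam
  have h1 : ∑' j, psi j x ^ 5 * psi j (r • y) = r * ∑' j, psi j x ^ 5 * psi j y := by
    rw [← tsum_mul_left]
    congr 1
    ext j
    rw [map_smul, smul_eq_mul]
    ring
  rw [h1, inner_smul_right]
  ring

theorem summ_W (x : H) : Summable (fun j : ℕ => (1/2 : ℝ) ^ (j + 3) * psi j x ^ 5) := by
  apply Summable.of_norm_bounded (g := fun j : ℕ => ‖x‖ ^ 5 * (1/2 : ℝ) ^ j)
  · exact (summable_geometric_of_lt_one (by norm_num) (by norm_num)).mul_left _
  · intro j
    rw [Real.norm_eq_abs, abs_mul, abs_of_nonneg (by positivity : (0:ℝ) ≤ (1/2 : ℝ) ^ (j + 3)), abs_pow]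
    have h1 : |psi j x| ≤ ‖x‖ := by
      refine (psi_le j x).trans ?_
      exact mul_le_of_le_one_left (norm_nonneg _) (pow_le_one₀ (by norm_num) (by norm_num))
    have h2 : |psi j x| ^ 5 ≤ ‖x‖ ^ 5 := pow_le_pow_left₀ (abs_nonneg _) h1 5
    have h3 : (1/2 : ℝ) ^ (j + 3) ≤ (1/2 : ℝ) ^ j :=
      pow_le_pow_of_le_one (by norm_num) (by norm_num) (by omega)
    calc (1/2 : ℝ) ^ (j + 3) * |psi j x| ^ 5 ≤ (1/2 : ℝ) ^ j * ‖x‖ ^ 5 := by gcongr
      _ = _ := mul_comm _ _

theorem exists_alpha (c1 c2 c3 c4 : Fin 5 → ℝ) : ∃ α : Fin 5 → ℝ, α ≠ 0 ∧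
    ∑ m, α m * c1 m = 0 ∧ ∑ m, α m * c2 m = 0 ∧ ∑ m, α m * c3 m = 0 ∧ ∑ m, α m * c4 m = 0 := by
  let Mx : Matrix (Fin 4) (Fin 5) ℝ := Matrix.of ![c1, c2, c3, c4]
  have hk : LinearMap.ker (Matrix.mulVecLin Mx) ≠ ⊥ := by
    apply LinearMap.ker_ne_bot_of_finrank_lt
    simp
  obtain ⟨α, hα, hne⟩ := Submodule.exists_mem_ne_zero_of_ne_bot hk
  rw [LinearMap.mem_ker, Matrix.mulVecLin_apply] at hα
  have key : ∀ i, ∑ m, α m * Mx i m = 0 := by
    intro i
    have := congrFun hα i
    simp only [Matrix.mulVec, dotProduct, Pi.zero_apply] at this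
    rw [← this]
    exact Finset.sum_congr rfl fun m _ => mul_comm _ _
  exact ⟨α, hne, key 0, key 1, key 2, key 3⟩

theorem poly_ne_zero (α : Fin 5 → ℝ) (hα : α ≠ 0) :
    (∑ m : Fin 5, Polynomial.C (α m) * (Polynomial.X + Polynomial.C ((m : ℕ) : ℝ)) ^ 5) ≠ 0 := by
  intro h
  apply hα
  have key : ∀ x : ℝ, ∑ m : Fin 5, α m * (x + ((m : ℕ) : ℝ)) ^ 5 = 0 := by
    intro x
    have := congrArg (Polynomial.eval x) h
    rw [Polynomial.eval_finsetSum, Polynomial.eval_zero] at this
    rw [← this]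
    refine Finset.sum_congr rfl fun m _ => ?_
    simp
  have k0 := key 0
  have k1 := key 1
  have k2 := key 2
  have k3 := key 3
  have k4 := key 4
  simp only [Fin.sum_univ_five, Fin.val_zero, Fin.val_one, Fin.val_two] at k0 k1 k2 k3 k4
  norm_num at k0 k1 k2 k3 k4
  funext i
  fin_cases i
  · show α 0 = 0
    linarith
  · show α 1 = 0
    linarith
  · show α 2 = 0
    linarith
  · show α 3 = 0
    linarith
  · show α 4 = 0
    linarith

theorem nogood (u v : H) (hli : ∀ s t : ℝ, s • u + t • v = 0 → s = 0 ∧ t = 0)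
    (hdec : ∀ w : H, ∃ (s t : ℝ) (y : H), w = s • u + t • v + y ∧
      ∀ a b r : ℝ, M (a • u + b • v) ≤ M (a • u + b • v + r • y)) : False := by
  let x : Fin 5 → H := fun m => u + ((m : ℕ) : ℝ) • v
  obtain ⟨α, hα, h1, h2, h3, h4⟩ := exists_alpha (fun m => ‖x m‖ ^ 4)
    (fun m => ‖x m‖ ^ 4 * ((m : ℕ) : ℝ)) (fun m => Lam (x m) u) (fun m => Lam (x m) v)
  have hLam : ∀ w : H, ∑ m, α m * Lam (x m) w = 0 := by
    intro w
    obtain ⟨s, t, y, hw, hM⟩ := hdec w
    have hy : ∀ m, Lam (x m) y = 0 := by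
      intro m
      apply Lam_zero
      intro r
      have := hM 1 ((m : ℕ) : ℝ) r
      rw [one_smul] at this
      exact this
    have hx : ∀ m, Lam (x m) w = s * Lam (x m) u + t * Lam (x m) v := by
      intro m
      rw [hw, Lam_add, Lam_add, Lam_smul, Lam_smul, hy, add_zero]
    calc ∑ m, α m * Lam (x m) w = s * ∑ m, α m * Lam (x m) u + t * ∑ m, α m * Lam (x m) v := by
          rw [Finset.mul_sum, Finset.mul_sum, ← Finset.sum_add_distrib]
          refine Finset.sum_congr rfl fun m _ => ?_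
          rw [hx]
          ring
      _ = 0 := by rw [h3, h4]; ring
  let W : ℕ → ℝ := fun j => ∑ m, α m * psi j (x m) ^ 5
  have hW : ∀ w : H, ∑' j, W j * psi j w = 0 := by
    intro w
    have e1 := hLam w
    have e2 : ∑ m, α m * Lam (x m) w
        = ∑ m, α m * (‖x m‖ ^ 4 * inner ℝ (x m) w)
          + ∑ m, ∑' j, α m * (psi j (x m) ^ 5 * psi j w) := by
      rw [← Finset.sum_add_distrib]
      refine Finset.sum_congr rfl fun m _ => ?_
      rw [tsum_mul_left]
      unfold Lam
      ring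
    have e3 : ∑ m, α m * (‖x m‖ ^ 4 * inner ℝ (x m) w) = 0 := by
      calc ∑ m, α m * (‖x m‖ ^ 4 * inner ℝ (x m) w)
          = (∑ m, α m * ‖x m‖ ^ 4) * inner ℝ u w
            + (∑ m, α m * (‖x m‖ ^ 4 * ((m : ℕ) : ℝ))) * inner ℝ v w := by
            rw [Finset.sum_mul, Finset.sum_mul, ← Finset.sum_add_distrib]
            refine Finset.sum_congr rfl fun m _ => ?_
            have : inner ℝ (x m) w = inner ℝ u w + ((m : ℕ) : ℝ) * inner ℝ v w := by
              show inner ℝ (u + ((m : ℕ) : ℝ) • v) w = _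
              rw [inner_add_left, real_inner_smul_left]
            rw [this]
            ring
        _ = 0 := by rw [h1, h2]; ring
    have e4 : ∑ m, ∑' j, α m * (psi j (x m) ^ 5 * psi j w) = ∑' j, W j * psi j w := by
      rw [← Summable.tsum_finsetSum (fun m _ => (summ_S1 (x m) w).mul_left (α m))]
      congr 1
      ext j
      show _ = (∑ m, α m * psi j (x m) ^ 5) * psi j w
      rw [Finset.sum_mul]
      refine Finset.sum_congr rfl fun m _ => ?_
      ring
    rw [← e4]
    rw [e2, e3, zero_add] at e1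
    exact e1
  have hWs : Summable (fun j => |(1/2 : ℝ) ^ (j + 3) * W j|) := by
    have : Summable (fun j : ℕ => ∑ m : Fin 5, α m * ((1/2 : ℝ) ^ (j + 3) * psi j (x m) ^ 5)) :=
      summable_sum fun m _ => (summ_W (x m)).mul_left (α m)
    refine this.abs.congr fun j => ?_
    congr 1
    show _ = (1/2 : ℝ) ^ (j + 3) * ∑ m, α m * psi j (x m) ^ 5
    rw [Finset.mul_sum]
    refine Finset.sum_congr rfl fun m _ => ?_
    ring
  have hW0 := adjoint_inj W hWs (fun i => hW _)
  set p : Polynomial ℝ :=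
    ∑ m : Fin 5, Polynomial.C (α m) * (Polynomial.X + Polynomial.C ((m : ℕ) : ℝ)) ^ 5 with hp
  have hp0 : p ≠ 0 := poly_ne_zero α hα
  have hv : v ≠ 0 := by
    intro h
    have := (hli 0 1 (by rw [h]; simp)).2
    exact one_ne_zero this
  have huv : ∀ r : ℝ, u - r • v ≠ 0 := by
    intro r h
    have := (hli 1 (-r) (by rw [one_smul, neg_smul, ← sub_eq_add_neg, h])).1
    exact one_ne_zero this
  have hfin : ({j : ℕ | psi j v = 0} ∪ ⋃ r ∈ p.roots.toFinset, {j : ℕ | psi j (u - r • v) = 0}).Finite := by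
    apply Set.Finite.union (psi_zeros_finite v hv)
    apply Set.Finite.biUnion (Finset.finite_toSet _)
    intro r _
    exact psi_zeros_finite _ (huv r)
  apply Set.infinite_univ (α := ℕ)
  refine hfin.subset ?_
  intro j _
  by_cases hg : psi j v = 0
  · left
    exact hg
  · right
    have hroot : psi j u / psi j v ∈ p.roots.toFinset := by
      rw [Multiset.mem_toFinset, Polynomial.mem_roots hp0, Polynomial.IsRoot.def, hp,
        Polynomial.eval_finsetSum]
      have h5 := hW0 j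
      have h6 : (psi j v) ^ 5 * ∑ m : Fin 5, Polynomial.eval (psi j u / psi j v)
          (Polynomial.C (α m) * (Polynomial.X + Polynomial.C ((m : ℕ) : ℝ)) ^ 5) = 0 := by
        rw [← h5, Finset.mul_sum]
        refine Finset.sum_congr rfl fun m _ => ?_
        simp only [Polynomial.eval_mul, Polynomial.eval_C, Polynomial.eval_pow,
          Polynomial.eval_add, Polynomial.eval_X]
        have h7 : psi j (x m) = psi j u + ((m : ℕ) : ℝ) * psi j v := by
          show psi j (u + ((m : ℕ) : ℝ) • v) = _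
          rw [map_add, map_smul, smul_eq_mul]
        rw [h7]
        have h8 : psi j u + ((m : ℕ) : ℝ) * psi j v
            = psi j v * (psi j u / psi j v + ((m : ℕ) : ℝ)) := by
          field_simp
        rw [h8]
        ring
      rcases mul_eq_zero.1 h6 with h9 | h9
      · exact absurd h9 (pow_ne_zero _ hg)
      · exact h9
    rw [Set.mem_iUnion₂]
    refine ⟨_, hroot, ?_⟩
    show psi j (u - (psi j u / psi j v) • v) = 0
    rw [map_sub, map_smul, smul_eq_mul]
    field_simp
    ring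

end H77MB
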