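import Pool.Agent.H77MB.MB1
import Pool.Agent.H77MB.MB4

set_option autoImplicit false
open Filter Topology

namespace H77MB

instance factSix : Fact ((1 : ENNReal) ≤ 6) := ⟨by norm_num⟩

abbrev Z : Type := lp (fun _ : ℕ => H) 6

noncomputable def e0 : H := lp.single 2 0 (1 : ℝ)

theorem norm_e0 : ‖e0‖ = 1 := by
  unfold e0
  rw [lp.norm_single (by norm_num)]
  norm_num

noncomputable def ev (i : ℕ) : Z →L[ℝ] H := lp.evalCLM ℝ (fun _ : ℕ => H) 6 i

theorem ev_apply (i : ℕ) (z : Z) : ev i z = z i := rfl

/-- the renormed Hilbert space, as a closed subspace of `Z` -/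
noncomputable def XS : Submodule ℝ Z where
  carrier := {z | ∀ j : ℕ, z (j + 1) = psi j (z 0) • e0}
  zero_mem' := by
    intro j
    rw [lp.coeFn_zero, Pi.zero_apply, Pi.zero_apply, map_zero, zero_smul]
  add_mem' := by
    intro a b ha hb j
    rw [lp.coeFn_add, Pi.add_apply, Pi.add_apply, ha j, hb j, map_add, add_smul]
  smul_mem' := by
    intro r a ha j
    rw [lp.coeFn_smul, Pi.smul_apply, Pi.smul_apply, ha j, map_smul, smul_eq_mul, mul_smul]

theorem isClosed_XS : IsClosed (XS : Set Z) := by
  have : (XS : Set Z) = ⋂ j : ℕ, {z : Z | ev (j + 1) z = psi j (ev 0 z) • e0} := by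
    ext z
    rw [Set.mem_iInter]
    rfl
  rw [this]
  apply isClosed_iInter
  intro j
  apply isClosed_eq (ev (j + 1)).continuous
  exact ((psi j).continuous.comp (ev 0).continuous).smul continuous_const

theorem norm_Z (z : Z) : ‖z‖ ^ 6 = ‖z 0‖ ^ 6 + ∑' j : ℕ, ‖z (j + 1)‖ ^ 6 := by
  have h6 : (6 : ENNReal).toReal = 6 := by norm_num
  have hp : 0 < (6 : ENNReal).toReal := by rw [h6]; norm_num
  have h1 := lp.norm_rpow_eq_tsum hp z
  have h2 := (lp.memℓp z).summable hp
  rw [h2.tsum_eq_zero_add] at h1
  rw [h6] at h1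
  simp only [Real.rpow_ofNat] at h1
  exact h1

noncomputable def compF (x : H) : ℕ → H
  | 0 => x
  | (j + 1) => psi j x • e0

theorem compF_mem (x : H) : Memℓp (compF x) 6 := by
  apply memℓp_gen
  have h6 : (6 : ENNReal).toReal = 6 := by norm_num
  rw [h6]
  simp only [Real.rpow_ofNat]
  rw [← summable_nat_add_iff 1]
  refine (summ_psi6 x).congr fun j => ?_
  show psi j x ^ 6 = ‖psi j x • e0‖ ^ 6
  rw [norm_smul, norm_e0, mul_one, Real.norm_eq_abs, ← abs_pow, abs_of_nonneg (by positivity)]

noncomputable def iotaZ (x : H) : Z := ⟨compF x, compF_mem x⟩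

theorem iotaZ_zero (x : H) : (iotaZ x : ℕ → H) 0 = x := rfl

theorem iotaZ_succ (x : H) (j : ℕ) : (iotaZ x : ℕ → H) (j + 1) = psi j x • e0 := rfl

noncomputable def iota : H →ₗ[ℝ] XS where
  toFun x := ⟨iotaZ x, fun j => rfl⟩
  map_add' x y := by
    apply Subtype.ext
    ext : 1
    apply funext
    intro k
    rw [Submodule.coe_add, lp.coeFn_add, Pi.add_apply]
    cases k with
    | zero => rfl
    | succ j =>
      show psi j (x + y) • e0 = psi j x • e0 + psi j y • e0
      rw [map_add, add_smul]
  map_smul' r x := by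
    apply Subtype.ext
    ext : 1
    apply funext
    intro k
    rw [RingHom.id_apply, Submodule.coe_smul, lp.coeFn_smul, Pi.smul_apply]
    cases k with
    | zero => rfl
    | succ j =>
      show psi j (r • x) • e0 = r • (psi j x • e0)
      rw [map_smul, smul_eq_mul, mul_smul]

noncomputable def base : XS →L[ℝ] H := (ev 0).comp XS.subtypeL

theorem base_iota (x : H) : base (iota x) = x := rfl

theorem iota_base (z : XS) : iota (base z) = z := by
  apply Subtype.ext
  ext : 1
  apply funext
  intro k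
  cases k with
  | zero => rfl
  | succ j => exact (z.2 j).symm

theorem norm_iota (x : H) : ‖iota x‖ ^ 6 = M x := by
  show ‖iotaZ x‖ ^ 6 = M x
  rw [norm_Z, iotaZ_zero, M, G]
  congr 1
  congr 1
  ext j
  rw [iotaZ_succ, norm_smul, norm_e0, mul_one, Real.norm_eq_abs, ← abs_pow,
    abs_of_nonneg (by positivity)]

theorem norm_iota_le_iff (x y : H) : ‖iota x‖ ≤ ‖iota y‖ ↔ M x ≤ M y := by
  rw [← norm_iota, ← norm_iota]
  exact (pow_le_pow_iff_left₀ (norm_nonneg _) (norm_nonneg _) (by norm_num)).symm

theorem norm_iota_le (x : H) : ‖iota x‖ ≤ 2 * ‖x‖ := by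
  have h : ‖iota x‖ ^ 6 ≤ (2 * ‖x‖) ^ 6 := by
    rw [norm_iota, M]
    have h1 := G_le x
    have h2 : 0 ≤ ‖x‖ ^ 6 := by positivity
    rw [mul_pow]
    norm_num
    linarith
  exact (pow_le_pow_iff_left₀ (norm_nonneg _) (by positivity) (by norm_num)).1 h

theorem iota_cont : Continuous iota :=
  (iota.mkContinuous 2 norm_iota_le).continuous

/-! ### the enumeration -/

def st : ℕ → ℕ × ℕ
  | 0 => (0, 0)
  | (k + 1) => if (st k).2 < (st k).1 then ((st k).1, (st k).2 + 1) else ((st k).1 + 1, 0)

theorem st_le (k : ℕ) : (st k).2 ≤ (st k).1 := by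
  induction k with
  | zero => simp [st]
  | succ k ih =>
    rw [st]
    split_ifs with h
    · show (st k).2 + 1 ≤ (st k).1
      omega
    · show 0 ≤ _
      omega

theorem st_formula (k : ℕ) : 2 * k = (st k).1 * ((st k).1 + 1) + 2 * (st k).2 := by
  induction k with
  | zero => simp [st]
  | succ k ih =>
    have hle := st_le k
    rw [st]
    split_ifs with h
    · show 2 * (k + 1) = (st k).1 * ((st k).1 + 1) + 2 * ((st k).2 + 1)
      rw [mul_add, ih]
      ring
    · have he : (st k).2 = (st k).1 := by omega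
      show 2 * (k + 1) = ((st k).1 + 1) * ((st k).1 + 1 + 1) + 2 * 0
      rw [mul_add, ih, he]
      ring

theorem st_tendsto : Tendsto (fun k => (st k).1) atTop atTop := by
  rw [tendsto_atTop]
  intro b
  filter_upwards [eventually_ge_atTop (b * b + 3 * b)] with k hk
  by_contra hlt
  push Not at hlt
  have h1 := st_formula k
  have h2 := st_le k
  have h3 : (st k).1 * ((st k).1 + 1) ≤ b * (b + 1) := Nat.mul_le_mul (by omega) (by omega)
  nlinarith

noncomputable def gam (k : ℕ) : ℝ :=
  if (st k).2 < (st k).1 then cc ((st k).1 + 1) - cc (st k).1 else cc ((st k).1 + 1)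

noncomputable def Sop (k : ℕ) (x : H) : H := Dop (st k).1 (st k).2 x

theorem P_succ (n : ℕ) (x : H) : P (n + 1) x = P n x + x n • lp.single 2 n (1 : ℝ) := by
  unfold P
  rw [Finset.sum_range_succ]
  congr 1
  rw [← lp.single_smul, smul_eq_mul, mul_one]

theorem P_zero (x : H) : P 0 x = 0 := by simp [P]

theorem Sop_zero (x : H) : Sop 0 x = 0 := by
  simp [Sop, st, Dop, P_zero]

theorem Sop_succ (k : ℕ) (x : H) :
    Sop (k + 1) x = Sop k x + (gam k * x (st k).2) • lp.single 2 (st k).2 (1 : ℝ) := by
  have hle := st_le k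
  unfold Sop gam
  rw [st]
  split_ifs with h
  · show Dop (st k).1 ((st k).2 + 1) x = _
    unfold Dop
    rw [P_succ, mul_smul, smul_add]
    abel
  · have he : (st k).2 = (st k).1 := by omega
    show Dop ((st k).1 + 1) 0 x = _
    rw [he]
    unfold Dop
    rw [P_zero, smul_zero, add_zero, P_succ, mul_smul, smul_add]
    rw [← add_smul]
    congr 2
    ring

theorem Sop_tendsto (x : H) : Tendsto (fun k => Sop k x) atTop (𝓝 x) := by
  have hcc : Tendsto (fun n : ℕ => cc n) atTop (𝓝 1) := by
    have h1 : Tendsto (fun n : ℕ => 1 / ((n : ℝ) + 2)) atTop (𝓝 0) := by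
      have h2 : Tendsto (fun n : ℕ => ((n : ℝ) + 2)) atTop atTop :=
        tendsto_atTop_add_const_right _ _ tendsto_natCast_atTop_atTop
      refine h2.inv_tendsto_atTop.congr fun n => ?_
      rw [Pi.inv_apply, one_div]
    have h3 := h1.const_sub 1
    rw [sub_zero] at h3
    exact h3
  have hcc1 : Tendsto (fun n : ℕ => cc (n + 1)) atTop (𝓝 1) := (tendsto_add_atTop_iff_nat 1).2 hcc
  have hd : Tendsto (fun n : ℕ => cc (n + 1) - cc n) atTop (𝓝 0) := by
    have := hcc1.sub hcc
    rwa [sub_self] at this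
  have hA : Tendsto (fun k => cc (st k).1 • P (st k).1 x) atTop (𝓝 x) := by
    have h1 := (hcc.smul (P_tendsto x)).comp st_tendsto
    rw [one_smul] at h1
    exact h1
  have hB : Tendsto (fun k => (cc ((st k).1 + 1) - cc (st k).1) • P (st k).2 x) atTop (𝓝 0) := by
    rw [tendsto_zero_iff_norm_tendsto_zero]
    have h1 : Tendsto (fun k => (cc ((st k).1 + 1) - cc (st k).1) * ‖x‖) atTop (𝓝 0) := by
      have := (hd.comp st_tendsto).mul_const ‖x‖
      rwa [zero_mul] at this
    refine squeeze_zero (fun k => norm_nonneg _) (fun k => ?_) h1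
    rw [norm_smul, Real.norm_of_nonneg (cc_diff_nonneg _)]
    exact mul_le_mul_of_nonneg_left (P_norm_le _ _) (cc_diff_nonneg _)
  have := hA.add hB
  rw [add_zero] at this
  exact this

noncomputable def vv (k : ℕ) : XS := iota (lp.single 2 (st k).2 (1 : ℝ))

noncomputable def ph (k : ℕ) : XS →L[ℝ] ℝ :=
  gam k • ((lp.evalCLM ℝ (fun _ : ℕ => ℝ) 2 (st k).2).comp base)

theorem ph_apply (k : ℕ) (z : XS) : ph k z = gam k * (base z) (st k).2 := rfl

theorem vv_ne (k : ℕ) : vv k ≠ 0 := by
  intro h
  have h1 : base (vv k) = 0 := by rw [h, map_zero]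
  unfold vv at h1
  rw [base_iota] at h1
  have h2 := congrArg (fun y : H => y (st k).2) h1
  simp only [lp.coeFn_single, Pi.single_eq_same, lp.coeFn_zero, Pi.zero_apply] at h2
  exact one_ne_zero h2

theorem partS_eq (k : ℕ) (z : XS) : partS vv ph k z = iota (Sop k (base z)) := by
  induction k with
  | zero =>
    rw [Sop_zero, map_zero]
    simp [partS]
  | succ k ih =>
    rw [partS_apply, Finset.sum_range_succ, ← partS_apply, ih, Sop_succ, map_add, map_smul]
    rfl

theorem partS_le (k : ℕ) (z : XS) : ‖partS vv ph k z‖ ≤ ‖z‖ := by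
  rw [partS_eq]
  conv_rhs => rw [← iota_base z]
  rw [norm_iota_le_iff]
  exact M_Dop_le _ _ _

theorem partS_tendsto (z : XS) : Tendsto (fun k => partS vv ph k z) atTop (𝓝 z) := by
  simp only [partS_eq]
  have h := (iota_cont.tendsto (base z)).comp (Sop_tendsto (base z))
  rw [iota_base] at h
  exact h

theorem XS_inf : ¬ FiniteDimensional ℝ XS := by
  intro hfd
  have hli : LinearIndependent ℝ (fun i : ℕ => iota (lp.single 2 i (1 : ℝ))) := by
    rw [linearIndependent_iff']
    intro s g hg i hi
    have h1 : base (∑ i ∈ s, g i • iota (lp.single 2 i (1 : ℝ))) = 0 := by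
      rw [hg, map_zero]
    rw [map_sum] at h1
    simp only [map_smul, base_iota] at h1
    have h2 := congrArg (fun y : H => y i) h1
    simp only [lp.coeFn_sum, Finset.sum_apply, lp.coeFn_smul, Pi.smul_apply, lp.coeFn_single,
      lp.coeFn_zero, Pi.zero_apply, smul_eq_mul] at h2
    rw [Finset.sum_eq_single i] at h2
    · simpa using h2
    · intro b _ hb
      rw [Pi.single_apply, if_neg (Ne.symm hb), mul_zero]
    · intro h
      exact absurd hi h
  have := hli.finite
  exact not_finite ℕ

theorem no_mono_basis (f : ℕ → XS) (hf : IsMonoBasis f) : False := by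
  obtain ⟨hb, hm⟩ := hf
  -- norm estimate for full expansions
  have hlim : ∀ (a : ℕ → ℝ) (x : XS),
      Tendsto (fun n : ℕ => ∑ i ∈ Finset.range n, a i • f i) atTop (𝓝 x) →
      ∀ n, ‖∑ i ∈ Finset.range n, a i • f i‖ ≤ ‖x‖ := by
    intro a x hx n
    refine ge_of_tendsto hx.norm ?_
    filter_upwards [eventually_ge_atTop n] with m hnm
    exact hm a n m hnm
  have hfin2 : ∀ (s t : ℝ), Tendsto (fun n : ℕ => ∑ i ∈ Finset.range n,
      (if i = 0 then s else if i = 1 then t else 0) • f i) atTop (𝓝 (s • f 0 + t • f 1)) := by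
    intro s t
    apply tendsto_const_nhds.congr'
    filter_upwards [eventually_ge_atTop 2] with n hn
    obtain ⟨k, rfl⟩ := Nat.exists_eq_add_of_le hn
    rw [Finset.sum_range_add, Finset.sum_range_succ, Finset.sum_range_succ, Finset.sum_range_zero]
    rw [Finset.sum_eq_zero]
    · simp
    · intro i _
      rw [if_neg (by omega), if_neg (by omega), zero_smul]
  apply nogood (base (f 0)) (base (f 1))
  · intro s t hst
    have h0 : s • f 0 + t • f 1 = 0 := by
      have : iota (s • base (f 0) + t • base (f 1)) = 0 := by rw [hst, map_zero]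
      rw [map_add, map_smul, map_smul, iota_base, iota_base] at this
      exact this
    obtain ⟨a, ha, hau⟩ := hb 0
    have h1 := hau _ (by
      have := hfin2 s t
      rw [h0] at this
      exact this)
    have h2 := hau (fun _ => 0) (by simp)
    rw [← h1] at h2
    have e0' := congrFun h2 0
    have e1' := congrFun h2 1
    simp at e0' e1'
    exact ⟨e0'.symm, e1'.symm⟩
  · intro w
    obtain ⟨a, ha, hau⟩ := hb (iota w)
    refine ⟨a 0, a 1, w - a 0 • base (f 0) - a 1 • base (f 1), by abel, ?_⟩
    intro s t r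
    rw [← norm_iota_le_iff]
    -- coefficients of `s f0 + t f1 + r y`
    have hsum : Tendsto (fun n : ℕ => ∑ i ∈ Finset.range n,
        ((if i = 0 then s else if i = 1 then t else 0) +
          r * (a i - (if i = 0 then a 0 else if i = 1 then a 1 else 0))) • f i) atTop
        (𝓝 ((s • f 0 + t • f 1) + r • (iota w - (a 0 • f 0 + a 1 • f 1)))) := by
      have h1 := (hfin2 s t).add ((ha.sub (hfin2 (a 0) (a 1))).const_smul r)
      refine h1.congr fun n => ?_
      rw [← Finset.sum_sub_distrib, Finset.smul_sum, ← Finset.sum_add_distrib]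
      refine Finset.sum_congr rfl fun i _ => ?_
      rw [add_smul, mul_smul, sub_smul]
    have h2 := hlim _ _ hsum 2
    rw [Finset.sum_range_succ, Finset.sum_range_succ, Finset.sum_range_zero] at h2
    simp only [zero_add, if_true, one_ne_zero, if_false, sub_self, mul_zero, add_zero] at h2
    have e1 : iota (s • base (f 0) + t • base (f 1)) = s • f 0 + t • f 1 := by
      rw [map_add, map_smul, map_smul, iota_base, iota_base]
    have e2 : iota (s • base (f 0) + t • base (f 1) +
        r • (w - a 0 • base (f 0) - a 1 • base (f 1)))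
        = (s • f 0 + t • f 1) + r • (iota w - (a 0 • f 0 + a 1 • f 1)) := by
      rw [map_add, e1, map_smul, map_sub, map_sub, map_smul, map_smul, iota_base, iota_base,
        sub_sub]
    rw [e1, e2]
    exact h2

theorem not_main : ¬ MainStmt := by
  intro hmain
  have : CompleteSpace XS := isClosed_XS.completeSpace_coe
  obtain ⟨f, hf⟩ := embed_main hmain vv vv_ne ph partS_le partS_tendsto XS_inf
  exact no_mono_basis f hf

end H77MB
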